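import Mathlib

namespace Pool.Agent.Results.MP_04ec84_gt.Midpoints

open Set

/-- `K` is a set of constant width `1` -/
def ConstWidth {d : ℕ} (K : Set (EuclideanSpace ℝ (Fin d))) : Prop :=
  IsCompact K ∧ Convex ℝ K ∧ K.Nonempty ∧ ∀ u : EuclideanSpace ℝ (Fin d), ‖u‖ = 1 →
    sSup ((fun x => inner ℝ u x) '' K) - sInf ((fun x => inner ℝ u x) '' K) = 1

/-- midpoints of diametral chords -/
def Mid {d : ℕ} (K : Set (EuclideanSpace ℝ (Fin d))) : Set (EuclideanSpace ℝ (Fin d)) :=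
  {p | ∃ x ∈ K, ∃ y ∈ K, ‖x - y‖ = 1 ∧ p = (1 / 2 : ℝ) • (x + y)}

variable {d : ℕ}

lemma dist_le {K : Set (EuclideanSpace ℝ (Fin d))} (h : ConstWidth K) {x y} (hx : x ∈ K)
    (hy : y ∈ K) : ‖x - y‖ ≤ 1 := by
  rcases eq_or_ne (x - y) 0 with e | e
  · simp [e]
  have hn : 0 < ‖x - y‖ := norm_pos_iff.mpr e
  have h1 := h.2.2.2 (‖x - y‖⁻¹ • (x - y)) (norm_smul_inv_norm e)
  have hc := h.1.image (f := fun z => inner ℝ (‖x - y‖⁻¹ • (x - y)) z) (by fun_prop)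
  have a := le_csSup hc.bddAbove ⟨x, hx, rfl⟩
  have b := csInf_le hc.bddBelow ⟨y, hy, rfl⟩
  have : inner ℝ (‖x - y‖⁻¹ • (x - y)) x - inner ℝ (‖x - y‖⁻¹ • (x - y)) y = ‖x - y‖ := by
    rw [← inner_sub_right, real_inner_smul_left, real_inner_self_eq_norm_sq]; field_simp
  linarith

lemma complete (S : Set (EuclideanSpace ℝ (Fin d))) (hne : S.Nonempty)
    (hS : ∀ x ∈ S, ∀ y ∈ S, ‖x - y‖ ≤ 1) : ∃ K, S ⊆ K ∧ ConstWidth K := by
  obtain ⟨K, hSK, hK⟩ := zorn_subset_nonempty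
    {T : Set (EuclideanSpace ℝ (Fin d)) | ∀ x ∈ T, ∀ y ∈ T, ‖x - y‖ ≤ 1} (by
      intro c hc hch _
      refine ⟨⋃₀ c, ?_, fun s hs => subset_sUnion_of_mem hs⟩
      rintro x ⟨s, hs, hx⟩ y ⟨t, ht, hy⟩
      rcases hch.total hs ht with h | h
      · exact hc ht x (h hx) y hy
      · exact hc hs x hx y (h hy)) S hS
  have mx : ∀ z, (∀ x ∈ K, ‖z - x‖ ≤ 1) → z ∈ K := by
    intro z hz
    refine hK.2 (y := insert z K) ?_ (subset_insert _ _) (mem_insert _ _)
    rintro x (rfl | hx) y (rfl | hy)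
    · simp
    · exact hz y hy
    · rw [norm_sub_rev]; exact hz x hx
    · exact hK.1 x hx y hy
  have e : K = ⋂ x ∈ K, Metric.closedBall x 1 := by
    ext z
    simp only [mem_iInter, mem_closedBall_iff_norm]
    exact ⟨fun hz x hx => hK.1 z hz x hx, mx z⟩
  have hne' := hne.mono hSK
  have hc : IsCompact K := Metric.isCompact_of_isClosed_isBounded
    (by rw [e]; exact isClosed_biInter fun _ _ => Metric.isClosed_closedBall)
    ((Metric.isBounded_closedBall (x := hne'.some) (r := 1)).subset fun z hz =>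
      mem_closedBall_iff_norm.mpr (hK.1 z hz _ hne'.some_mem))
  refine ⟨K, hSK, hc, by rw [e]; exact convex_iInter₂ fun _ _ => convex_closedBall _ _, hne',
    fun u hu => ?_⟩
  obtain ⟨y, hy, hm⟩ := hc.exists_isMinOn hne' (f := fun x => inner ℝ u x) (by fun_prop)
  have key : ∀ z ∈ K, ‖z - y‖ ^ 2 ≤ 2 * inner ℝ u (z - y) := by
    intro z hz
    have h1 : ∀ t ∈ Ioo (0 : ℝ) 1, (1 - t) * ‖z - y‖ ^ 2 ≤ 2 * inner ℝ u (z - y) := by
      intro t ht
      have n1 := hK.1 z hz y hy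
      have n0 := norm_nonneg (z - y)
      have hw : y + t • (z - y) - (t * (1 - t) * ‖z - y‖ ^ 2 / 2) • u ∈ K := by
        apply mx
        intro x hx
        have a := hK.1 z hz x hx
        have b := hK.1 y hy x hx
        have p : 0 ≤ t * (1 - t) * ‖z - y‖ ^ 2 := mul_nonneg (mul_nonneg ht.1.le (by
          linarith [ht.2])) (sq_nonneg _)
        have q : ‖(y - x) + t • (z - y)‖ ≤ 1 - t * (1 - t) * ‖z - y‖ ^ 2 / 2 := by
          have i1 := norm_add_sq_real (y - x) (t • (z - y))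
          have i2 := norm_add_sq_real (y - x) (z - y)
          rw [show y - x + (z - y) = z - x by abel] at i2
          rw [real_inner_smul_right, norm_smul, Real.norm_eq_abs, mul_pow, sq_abs] at i1
          have a2 : ‖z - x‖ ^ 2 ≤ 1 := by nlinarith [norm_nonneg (z - x)]
          have b2 : ‖y - x‖ ^ 2 ≤ 1 := by nlinarith [norm_nonneg (y - x)]
          have : ‖(y - x) + t • (z - y)‖ ^ 2 ≤ 1 - t * (1 - t) * ‖z - y‖ ^ 2 := by
            nlinarith [ht.1, ht.2]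
          nlinarith [sq_nonneg (‖(y - x) + t • (z - y)‖ - 1)]
        rw [show y + t • (z - y) - (t * (1 - t) * ‖z - y‖ ^ 2 / 2) • u - x =
          ((y - x) + t • (z - y)) - (t * (1 - t) * ‖z - y‖ ^ 2 / 2) • u by abel]
        refine (norm_sub_le _ _).trans ?_
        rw [norm_smul, hu, Real.norm_eq_abs, abs_of_nonneg (by linarith)]
        linarith
      have := hm hw
      simp only [mem_ofPred_eq, inner_sub_right u (y + _), inner_add_right, real_inner_smul_right,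
        real_inner_self_eq_norm_sq, hu] at this
      nlinarith [ht.1]
    have lim : Filter.Tendsto (fun t : ℝ => (1 - t) * ‖z - y‖ ^ 2) (nhdsWithin 0 (Ioi 0))
        (nhds (‖z - y‖ ^ 2)) :=
      Filter.Tendsto.mono_left (Continuous.tendsto' (by fun_prop) _ _ (by simp)) nhdsWithin_le_nhds
    exact le_of_tendsto lim (Filter.mem_of_superset (Ioo_mem_nhdsGT one_pos) h1)
  have hyu : y + u ∈ K := by
    apply mx
    intro x hx
    have := norm_sub_sq_real u (x - y)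
    rw [show y + u - x = u - (x - y) by abel]
    nlinarith [key x hx, norm_nonneg (u - (x - y))]
  have l : IsLeast ((fun x => inner ℝ u x) '' K) (inner ℝ u y) :=
    ⟨⟨y, hy, rfl⟩, by rintro _ ⟨x, hx, rfl⟩; exact hm hx⟩
  have g : IsGreatest ((fun x => inner ℝ u x) '' K) (inner ℝ u y + 1) := by
    refine ⟨⟨y + u, hyu, by simp [inner_add_right, hu]⟩, ?_⟩
    rintro _ ⟨x, hx, rfl⟩
    have := real_inner_le_norm u (x - y)
    rw [inner_sub_right, hu] at this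
    linarith [hK.1 x hx y hy]
  rw [l.csInf_eq, g.csSup_eq]; ring

lemma bound {K : Set (EuclideanSpace ℝ (Fin d))} (h : ConstWidth K) {p q} (hp : p ∈ Mid K)
    (hq : q ∈ Mid K) : dist p q ≤ √2 / 2 := by
  obtain ⟨x, hx, y, hy, e, rfl⟩ := hp
  obtain ⟨z, hz, w, hw, f, rfl⟩ := hq
  have a := parallelogram_law_with_norm ℝ (x - z) (y - w)
  have b := parallelogram_law_with_norm ℝ (x - w) (y - z)
  have c := parallelogram_law_with_norm ℝ (x - y) (z - w)
  rw [show x - z + (y - w) = x + y - (z + w) by abel,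
    show x - z - (y - w) = x - y - (z - w) by abel] at a
  rw [show x - w + (y - z) = x + y - (z + w) by abel,
    show x - w - (y - z) = x - y + (z - w) by abel] at b
  rw [e, f] at c
  have sq : ∀ {s t}, s ∈ K → t ∈ K → ‖s - t‖ ^ 2 ≤ 1 := fun hs ht =>
    pow_le_one₀ (norm_nonneg _) (dist_le h hs ht)
  rw [dist_eq_norm, ← smul_sub, norm_smul, Real.norm_eq_abs, abs_of_pos (by norm_num)]
  have : ‖x + y - (z + w)‖ ≤ √2 := Real.le_sqrt_of_sq_le (by
    nlinarith [sq hx hz, sq hy hw, sq hx hw, sq hy hz])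
  linarith

lemma alg {r A B P Q : ℝ} (hs : A + B = 1) (hA : 0 ≤ A) (hB : 0 ≤ B)
    (e : r * A * B = P ^ 2 * B + Q ^ 2 * A) (h1 : r + A + 2 * P ≤ 1) (h2 : r + A - 2 * P ≤ 1)
    (h3 : r + B + 2 * Q ≤ 1) (h4 : r + B - 2 * Q ≤ 1) : r ≤ 1 / 4 := by
  by_contra hr
  have a : 4 * P ^ 2 ≤ (B - r) ^ 2 := by nlinarith
  have b : 4 * Q ^ 2 ≤ (A - r) ^ 2 := by nlinarith
  have c : 4 * (r * A * B) ≤ (B - r) ^ 2 * B + (A - r) ^ 2 * A := by nlinarith
  obtain rfl : B = 1 - A := by linarith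
  have : (A - 1 / 2) ^ 2 < 1 / 16 := by nlinarith
  have : (1 / 2 - r) ^ 2 < 1 / 16 := by nlinarith
  nlinarith

lemma bound2 {K : Set (EuclideanSpace ℝ (Fin 2))} (h : ConstWidth K) {p q} (hp : p ∈ Mid K)
    (hq : q ∈ Mid K) : dist p q ≤ 1 / 2 := by
  obtain ⟨x, hx, y, hy, e, rfl⟩ := hp
  obtain ⟨z, hz, w, hw, f, rfl⟩ := hq
  have sq : ∀ {s t}, s ∈ K → t ∈ K → (s 0 - t 0) ^ 2 + (s 1 - t 1) ^ 2 ≤ 1 := fun hs ht => by
    simpa [EuclideanSpace.real_norm_sq_eq] using pow_le_one₀ (n := 2) (norm_nonneg _)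
      (dist_le h hs ht)
  have e2 : (x 0 - y 0) ^ 2 + (x 1 - y 1) ^ 2 = 1 := by
    have := EuclideanSpace.real_norm_sq_eq (x - y)
    rw [e] at this
    simpa using this.symm
  have f2 : (z 0 - w 0) ^ 2 + (z 1 - w 1) ^ 2 = 1 := by
    have := EuclideanSpace.real_norm_sq_eq (z - w)
    rw [f] at this
    simpa using this.symm
  rw [dist_eq_norm]
  apply (sq_le_sq₀ (norm_nonneg _) (by norm_num)).mp
  rw [EuclideanSpace.real_norm_sq_eq, Fin.sum_univ_two]
  simp only [PiLp.sub_apply, PiLp.smul_apply, PiLp.add_apply, smul_eq_mul]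
  have h1 := sq hx hz
  have h2 := sq hy hw
  have h3 := sq hx hw
  have h4 := sq hy hz
  generalize x 0 = x0, x 1 = x1, y 0 = y0, y 1 = y1, z 0 = z0, z 1 = z1, w 0 = w0, w 1 = w1 at *
  obtain ⟨m0, m1, a0, a1, b0, b1, t0, t1, rfl, rfl, rfl, rfl, rfl, rfl, rfl, rfl⟩ :
      ∃ m0 m1 a0 a1 b0 b1 t0 t1 : ℝ, x0 = t0 + m0 + (a0 + b0) / 2 ∧ x1 = t1 + m1 + (a1 + b1) / 2 ∧
        y0 = t0 + m0 - (a0 + b0) / 2 ∧ y1 = t1 + m1 - (a1 + b1) / 2 ∧ z0 = t0 + (a0 - b0) / 2 ∧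
        z1 = t1 + (a1 - b1) / 2 ∧ w0 = t0 - (a0 - b0) / 2 ∧ w1 = t1 - (a1 - b1) / 2 :=
    ⟨(x0 + y0 - z0 - w0) / 2, (x1 + y1 - z1 - w1) / 2, (x0 - y0 + z0 - w0) / 2,
      (x1 - y1 + z1 - w1) / 2, (x0 - y0 - z0 + w0) / 2, (x1 - y1 - z1 + w1) / 2, (z0 + w0) / 2,
      (z1 + w1) / 2, by ring, by ring, by ring, by ring, by ring, by ring, by ring, by ring⟩
  have o : a0 * b0 + a1 * b1 = 0 := by linarith
  have := alg (r := m0 ^ 2 + m1 ^ 2) (A := a0 ^ 2 + a1 ^ 2) (B := b0 ^ 2 + b1 ^ 2)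
    (P := m0 * a0 + m1 * a1) (Q := m0 * b0 + m1 * b1) (by linarith) (by positivity)
    (by positivity) (by
      linear_combination ((m0 ^ 2 + m1 ^ 2) * (a0 * b0 + a1 * b1) -
        2 * (m0 * a0 + m1 * a1) * (m0 * b0 + m1 * b1)) * o)
    (by linarith) (by linarith) (by linarith) (by linarith)
  linarith

lemma attain {x y z w : EuclideanSpace ℝ (Fin d)} {r : ℝ} (hr : 0 ≤ r) (h1 : ‖x - y‖ = 1)
    (h2 : ‖z - w‖ = 1) (h3 : ‖x - z‖ ≤ 1) (h4 : ‖x - w‖ ≤ 1) (h5 : ‖y - z‖ ≤ 1) (h6 : ‖y - w‖ ≤ 1)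
    (h7 : ‖x + y - (z + w)‖ = 2 * r)
    (hb : ∀ K : Set (EuclideanSpace ℝ (Fin d)), ConstWidth K → ∀ p ∈ Mid K, ∀ q ∈ Mid K,
      dist p q ≤ r) :
    IsGreatest {s | ∃ K : Set (EuclideanSpace ℝ (Fin d)), ConstWidth K ∧ s = Metric.diam (Mid K)}
      r := by
  constructor
  · obtain ⟨K, hK, hc⟩ := complete {x, y, z, w} ⟨x, by simp⟩ (by
      rintro a (rfl | rfl | rfl | rfl) b (rfl | rfl | rfl | rfl) <;>
        first
        | simp
        | linarith
        | (rw [norm_sub_rev]; linarith))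
    refine ⟨K, hc, le_antisymm ?_ (Metric.diam_le_of_forall_dist_le hr (hb K hc))⟩
    have := Metric.dist_le_diam_of_mem (Metric.isBounded_iff.mpr ⟨r, fun p hp q hq =>
      hb K hc p hp q hq⟩) ⟨x, hK (by simp), y, hK (by simp), h1, rfl⟩
        ⟨z, hK (by simp), w, hK (by simp), h2, rfl⟩
    rw [dist_eq_norm, ← smul_sub, norm_smul, Real.norm_eq_abs, abs_of_pos (by norm_num), h7] at this
    linarith
  · rintro _ ⟨K, hc, rfl⟩
    exact Metric.diam_le_of_forall_dist_le hr (hb K hc)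

theorem result (d : ℕ) (hd : 2 ≤ d) :
    IsGreatest {s | ∃ K : Set (EuclideanSpace ℝ (Fin d)), ConstWidth K ∧ s = Metric.diam (Mid K)}
      (if d = 2 then 1 / 2 else √2 / 2) := by
  split_ifs with h
  · subst h
    have s3 : √3 ^ 2 = 3 := Real.sq_sqrt (by norm_num)
    have n : ∀ v : EuclideanSpace ℝ (Fin 2), v 0 ^ 2 + v 1 ^ 2 = 1 → ‖v‖ = 1 := fun v hv => by
      rw [EuclideanSpace.norm_eq, Fin.sum_univ_two]; simp [hv]
    apply attain (x := 0) (y := !₂[1, 0]) (z := 0) (w := !₂[1 / 2, √3 / 2]) (by norm_num)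
      (n _ (by simp)) (n _ (by simp; linarith)) (by simp) (n _ (by simp; linarith)).le
      (n _ (by simp)).le (n _ (by simp; linarith)).le _ fun K hK p hp q hq => bound2 hK hp hq
    rw [n _ (by simp; linarith)]; norm_num
  · obtain ⟨m, rfl⟩ : ∃ m, d = m + 3 := ⟨d - 3, by omega⟩
    have s2 : √2 ^ 2 = 2 := Real.sq_sqrt (by norm_num)
    obtain ⟨F, hF, n⟩ : ∃ F : ℝ → ℝ → ℝ → EuclideanSpace ℝ (Fin (m + 3)),
        (∀ a b c a' b' c', F a b c - F a' b' c' = F (a - a') (b - b') (c - c') ∧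
          F a b c + F a' b' c' = F (a + a') (b + b') (c + c')) ∧
        ∀ a b c r, 0 ≤ r → a ^ 2 + b ^ 2 + c ^ 2 = r ^ 2 → ‖F a b c‖ = r := by
      refine ⟨fun a b c => WithLp.toLp 2 (Fin.cons a (Fin.cons b (Fin.cons c 0))), ?_, ?_⟩
      · intro a b c a' b' c'
        constructor <;> ext i <;> refine Fin.cases ?_ (fun i => Fin.cases ?_ (fun i =>
          Fin.cases ?_ (fun i => ?_) i) i) i <;>
          simp only [PiLp.sub_apply, PiLp.add_apply, Fin.cons_zero, Fin.cons_succ, Pi.zero_apply,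
            sub_zero, add_zero]
      · intro a b c r hr e
        rw [EuclideanSpace.norm_eq, Fin.sum_univ_succ, Fin.sum_univ_succ, Fin.sum_univ_succ]
        simp only [Fin.cons_zero, Fin.cons_succ, Pi.zero_apply]
        simp [← add_assoc, e, hr]
    apply attain (x := F (√2 / 2) (1 / 2) 0) (y := F (√2 / 2) (-1 / 2) 0) (z := F 0 0 (1 / 2))
      (w := F 0 0 (-1 / 2)) (by positivity) _ _ _ _ _ _ _ fun K hK p hp q hq => bound hK hp hq
    all_goals simp only [(hF _ _ _ _ _ _).1, (hF _ _ _ _ _ _).2]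
    all_goals first
      | exact n _ _ _ _ (by positivity) (by linarith)
      | exact (n _ _ _ _ (by positivity) (by linarith)).le

end Pool.Agent.Results.MP_04ec84_gt.Midpoints
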